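import Pool.Agent.H125b.BR.Core
import Pool.Agent.W263.BSD.Lead6

/-!
# Brackets for the leading coefficient

`Φ` is analytic for `re z > 0`, `Φ z = exp (- z lapC a z)` for large `re z`, and `‖Φ w‖ / w ^ ρ → A > 0` for `w → 0+`.
Then `limsup (a u - ρ (γ + log u) + log A) ≥ 0`, and the lower limit is `≤ 0` if `Φ` has no positive zeros.
-/

set_option autoImplicit false

namespace Pool.Agent.H125b.BR

open MeasureTheory Filter Topology Set
open Pool.Agent.W263.BSD (LInt lap lapC lap_const_mul lap_sub lap_nonneg lap_add ell ell_meas ell_nonneg ell_LInt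
  ell_lap_limit ell_sub_log ell_mono abel_le one_LInt lap_neg')

variable {a : ℝ → ℝ} {Φ : ℂ → ℂ} {c0 : ℝ}

/-- locally bounded on `(0, ∞)` -/
def Loc (a : ℝ → ℝ) : Prop := ∀ U : ℝ, ∃ M : ℝ, ∀ u : ℝ, 0 < u → u ≤ U → |a u| ≤ M

theorem ell_ge_one {u : ℝ} (hu : 0 ≤ u) : 1 ≤ ell u := ell_nonneg hu

theorem kap_meas (k M : ℝ) : Measurable fun u : ℝ => k * ell u + M * 1 :=
  (ell_meas.const_mul k).add measurable_const

theorem kap_LInt (k M : ℝ) {w : ℝ} (hw : 0 < w) : LInt (fun u : ℝ => k * ell u + M * 1) w :=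
  ((ell_LInt hw).const_mul k).add ((one_LInt hw).const_mul M)

theorem log_le_ell {u : ℝ} (hu : 1 ≤ u) : Real.log u ≤ ell u := by
  unfold ell
  exact Real.log_le_log (by linarith) (by linarith [Real.exp_pos 1])

/-- one-sided upper bounds imply convergence -/
theorem D1.conv_upper (D : D1 a Φ c0) (hl : Loc a) {k C : ℝ}
    (h : ∀ᶠ u : ℝ in atTop, a u ≤ k * Real.log u + C) : ∀ w > 0, LInt a w := by
  obtain ⟨U, hU⟩ := eventually_atTop.mp h
  obtain ⟨M, hM⟩ := hl (max U 1)
  refine D.core_upper le_rfl (kap_meas |k| (|C| + |M|)) (fun w hw => kap_LInt |k| (|C| + |M|) hw) ?_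
  intro u hu
  have h1 := ell_ge_one hu.le
  have h2 := abs_nonneg k
  have h3 := abs_nonneg C
  have h4 := abs_nonneg M
  have h5 : 0 ≤ |k| * ell u := mul_nonneg h2 (by linarith)
  rcases le_or_gt (max U 1) u with h6 | h6
  · have h7 := hU u ((le_max_left _ _).trans h6)
    have h8 : 1 ≤ u := (le_max_right _ _).trans h6
    have h9 : k * Real.log u ≤ |k| * ell u := by
      calc k * Real.log u ≤ |k| * Real.log u :=
            mul_le_mul_of_nonneg_right (le_abs_self k) (Real.log_nonneg h8)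
        _ ≤ |k| * ell u := mul_le_mul_of_nonneg_left (log_le_ell h8) h2
    have := le_abs_self C
    linarith
  · have h7 := (abs_le.mp (hM u hu h6.le)).2
    have := le_abs_self M
    linarith

/-- one-sided lower bounds imply convergence if there are no positive zeros -/
theorem D1.conv_lower (D : D1 a Φ c0) (hl : Loc a) (hne : ∀ w : ℝ, 0 < w → Φ w ≠ 0) {k C : ℝ}
    (h : ∀ᶠ u : ℝ in atTop, k * Real.log u + C ≤ a u) : ∀ w > 0, LInt a w := by
  obtain ⟨U, hU⟩ := eventually_atTop.mp h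
  obtain ⟨M, hM⟩ := hl (max U 1)
  refine D.core le_rfl (kap_meas (-|k|) (-(|C| + |M|))) (fun w hw => kap_LInt (-|k|) (-(|C| + |M|)) hw)
    (Or.inr rfl) ?_ (fun s hs _ => hne s hs)
  intro u hu
  have h1 := ell_ge_one hu.le
  have h2 := abs_nonneg k
  have h3 := abs_nonneg C
  have h4 := abs_nonneg M
  have h5 : 0 ≤ |k| * ell u := mul_nonneg h2 (by linarith)
  rcases le_or_gt (max U 1) u with h6 | h6
  · have h7 := hU u ((le_max_left _ _).trans h6)
    have h8 : 1 ≤ u := (le_max_right _ _).trans h6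
    have h9 : -(|k| * ell u) ≤ k * Real.log u := by
      have h10 : |k| * Real.log u ≤ |k| * ell u := mul_le_mul_of_nonneg_left (log_le_ell h8) h2
      have h11 : -(|k| * Real.log u) ≤ k * Real.log u := by
        rw [← neg_mul]
        exact mul_le_mul_of_nonneg_right (neg_abs_le k) (Real.log_nonneg h8)
      linarith
    have := neg_abs_le C
    linarith
  · have h7 := (abs_le.mp (hM u hu h6.le)).1
    have := neg_abs_le M
    have := le_abs_self M
    linarith

/-- convergence implies that there are no zeros -/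
theorem D1.ne_of_conv (D : D1 a Φ c0) (h : ∀ w > 0, LInt a w) {z : ℂ} (hz : 0 < z.re) : Φ z ≠ 0 := by
  rw [D.eq_of_conv le_rfl h z hz]
  exact Complex.exp_ne_zero _

/-- **The Abel limit.** -/
theorem D1.abel_limit (D : D1 a Φ c0) (hconv : ∀ w > 0, LInt a w) {ρ A : ℝ} (hA : 0 < A)
    (hlim : Tendsto (fun w : ℝ => ‖Φ w‖ / w ^ ρ) (𝓝[>] 0) (𝓝 A)) :
    Tendsto (fun w : ℝ => w * lap (fun u => a u - ρ * ell u) w) (𝓝[>] 0)
      (𝓝 (ρ * Real.eulerMascheroniConstant - Real.log A)) := by
  have h1 : Tendsto (fun w : ℝ => Real.log (‖Φ w‖ / w ^ ρ)) (𝓝[>] 0) (𝓝 (Real.log A)) :=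
    hlim.log hA.ne'
  have h2 := (h1.neg).sub (ell_lap_limit.const_mul ρ)
  have h3 : -Real.log A - ρ * -Real.eulerMascheroniConstant =
      ρ * Real.eulerMascheroniConstant - Real.log A := by ring
  rw [h3] at h2
  refine h2.congr' ?_
  filter_upwards [self_mem_nhdsWithin] with w hw
  have hw0 : (0 : ℝ) < w := hw
  have h4 := D.real_eq le_rfl hconv hw0
  rw [h4, Complex.norm_real, Real.norm_of_nonneg (Real.exp_pos _).le,
    Real.log_div (Real.exp_pos _).ne' (Real.rpow_pos_of_pos hw0 _).ne', Real.log_exp, Real.log_rpow hw0,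
    lap_sub (hconv w hw0) ((ell_LInt hw0).const_mul _), lap_const_mul]
  ring

theorem loc_sub (hl : Loc a) (ρ : ℝ) : Loc fun u => a u - ρ * ell u := by
  intro U
  obtain ⟨M, hM⟩ := hl U
  refine ⟨M + |ρ| * ell U, fun u hu huU => ?_⟩
  have h1 := hM u hu huU
  have h2 : |ρ * ell u| ≤ |ρ| * ell U := by
    rw [abs_mul, abs_of_nonneg (show (0 : ℝ) ≤ ell u by linarith [ell_ge_one hu.le])]
    exact mul_le_mul_of_nonneg_left (ell_mono hu.le huU) (abs_nonneg ρ)
  exact (abs_sub _ _).trans (add_le_add h1 h2)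

/-- **The upper limit is at least the constant.** -/
theorem D1.bracket_upper (D : D1 a Φ c0) (hl : Loc a) {ρ A : ℝ} (hA : 0 < A)
    (hlim : Tendsto (fun w : ℝ => ‖Φ w‖ / w ^ ρ) (𝓝[>] 0) (𝓝 A)) {ε : ℝ} (hε : 0 < ε) :
    ∃ᶠ u : ℝ in atTop,
      ρ * (Real.eulerMascheroniConstant + Real.log u) - Real.log A - ε < a u := by
  by_contra hcon
  rw [not_frequently] at hcon
  have hle : ∀ᶠ u : ℝ in atTop,
      a u ≤ ρ * (Real.eulerMascheroniConstant + Real.log u) - Real.log A - ε :=
    hcon.mono fun u hu => not_lt.mp hu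
  have hconv := D.conv_upper hl (k := ρ) (C := ρ * Real.eulerMascheroniConstant - Real.log A - ε)
    (hle.mono fun u hu => by linarith)
  have hd : ∀ᶠ u : ℝ in atTop, -(ε / 2) < ρ * (ell u - Real.log u) := by
    have := ell_sub_log.const_mul ρ
    rw [mul_zero] at this
    exact this.eventually (lt_mem_nhds (by linarith))
  obtain ⟨U, hU⟩ := eventually_atTop.mp (hle.and hd)
  obtain ⟨M, hM⟩ := loc_sub hl ρ (max U 0)
  have h1 := abel_le (f := fun u => a u - ρ * ell u)
    (fun w hw => (hconv w hw).sub ((ell_LInt hw).const_mul ρ)) (le_max_right U 0) (abs_nonneg M)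
    (D.abel_limit hconv hA hlim)
    (B := ρ * Real.eulerMascheroniConstant - Real.log A - ε / 2)
    (fun u hu => by
      obtain ⟨h2, h3⟩ := hU u ((le_max_left _ _).trans hu.le)
      linarith)
    (fun u hu huU => ((abs_le.mp (hM u hu huU)).2).trans (le_abs_self M))
  linarith

/-- **The lower limit is at most the constant,** if there are no positive zeros. -/
theorem D1.bracket_lower (D : D1 a Φ c0) (hl : Loc a) (hne : ∀ w : ℝ, 0 < w → Φ w ≠ 0) {ρ A : ℝ}
    (hA : 0 < A) (hlim : Tendsto (fun w : ℝ => ‖Φ w‖ / w ^ ρ) (𝓝[>] 0) (𝓝 A)) {ε : ℝ} (hε : 0 < ε) :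
    ∃ᶠ u : ℝ in atTop,
      a u < ρ * (Real.eulerMascheroniConstant + Real.log u) - Real.log A + ε := by
  by_contra hcon
  rw [not_frequently] at hcon
  have hle : ∀ᶠ u : ℝ in atTop,
      ρ * (Real.eulerMascheroniConstant + Real.log u) - Real.log A + ε ≤ a u :=
    hcon.mono fun u hu => not_lt.mp hu
  have hconv := D.conv_lower hl hne (k := ρ) (C := ρ * Real.eulerMascheroniConstant - Real.log A + ε)
    (hle.mono fun u hu => by linarith)
  have hd : ∀ᶠ u : ℝ in atTop, ρ * (ell u - Real.log u) < ε / 2 := by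
    have := ell_sub_log.const_mul ρ
    rw [mul_zero] at this
    exact this.eventually (gt_mem_nhds (by linarith))
  obtain ⟨U, hU⟩ := eventually_atTop.mp (hle.and hd)
  obtain ⟨M, hM⟩ := loc_sub hl ρ (max U 0)
  have hlim2 := (D.abel_limit hconv hA hlim).neg
  have h1 := abel_le (f := fun u => -(a u - ρ * ell u))
    (fun w hw => ((hconv w hw).sub ((ell_LInt hw).const_mul ρ)).neg) (le_max_right U 0) (abs_nonneg M)
    (C := -(ρ * Real.eulerMascheroniConstant - Real.log A))
    (B := -(ρ * Real.eulerMascheroniConstant - Real.log A + ε / 2))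
    (hlim2.congr fun w => by rw [lap_neg' (f := fun u => a u - ρ * ell u)]; ring)
    (fun u hu => by
      obtain ⟨h2, h3⟩ := hU u ((le_max_left _ _).trans hu.le)
      linarith)
    (fun u hu huU => by
      have h4 := (abs_le.mp (hM u hu huU)).1
      have := le_abs_self M
      linarith)
  linarith

end Pool.Agent.H125b.BR
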