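import Pool.Agent.W263.BSD.Lead1

/-!
# One-sided bounds and Landau's lemma for functions analytic in a half plane

`Φ` is analytic in `re z > 0` and `Φ z = exp (- z lapC a z)` for large `re z`.  (Compare `Pool.Agent.W263.BSD.Core`,
where `Φ` is entire.)
-/

set_option autoImplicit false

namespace Pool.Agent.H125b.BR

open MeasureTheory ProbabilityTheory Filter Topology Set
open Pool.Agent.W263.BSD (LInt lap lapC isOpen_half preconn_half lapC_differentiableAt lapC_ofReal landau dens
  dens_pos mem_integrableExpSet_dens mgf_dens lap_const_mul lap_sub lap_nonneg lap_add)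

/-- `Φ` is analytic for `re z > 0` and `Φ z = exp (- z lapC a z)` for `re z > c0`. -/
structure D1 (a : ℝ → ℝ) (Φ : ℂ → ℂ) (c0 : ℝ) : Prop where
  meas : Measurable a
  c0_nonneg : 0 ≤ c0
  int : ∀ w > c0, LInt a w
  hΦ : ∀ z : ℂ, 0 < z.re → DifferentiableAt ℂ Φ z
  eq : ∀ z : ℂ, c0 < z.re → Φ z = Complex.exp (-(z * lapC a z))

variable {a : ℝ → ℝ} {Φ : ℂ → ℂ} {c0 : ℝ}

/-- the identity extends to the half plane of convergence -/
theorem D1.eq_of_conv (D : D1 a Φ c0) {s : ℝ} (hs : 0 ≤ s) (h : ∀ w > s, LInt a w) :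
    ∀ z : ℂ, s < z.re → Φ z = Complex.exp (-(z * lapC a z)) := by
  have hd : DifferentiableOn ℂ (fun z => Complex.exp (-(z * lapC a z))) {z : ℂ | s < z.re} := by
    intro z hz
    have hz' : s < z.re := hz
    refine DifferentiableAt.differentiableWithinAt ?_
    refine DifferentiableAt.cexp ?_
    exact (differentiableAt_id.mul (lapC_differentiableAt D.meas h hz')).neg
  have h1 : AnalyticOnNhd ℂ Φ {z : ℂ | s < z.re} := by
    refine DifferentiableOn.analyticOnNhd (fun z hz => ?_) (isOpen_half s)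
    have hz' : s < z.re := hz
    exact (D.hΦ z (by linarith)).differentiableWithinAt
  have h2 := hd.analyticOnNhd (isOpen_half s)
  have hz0 : s < (((max s c0 + 1 : ℝ) : ℂ)).re := by
    rw [Complex.ofReal_re]
    have := le_max_left s c0
    linarith
  have h3 := h1.eqOn_of_preconnected_of_eventuallyEq h2 (preconn_half s) hz0 ?_
  · intro z hz
    exact h3 hz
  · have hz1 : c0 < (((max s c0 + 1 : ℝ) : ℂ)).re := by
      rw [Complex.ofReal_re]
      have := le_max_right s c0
      linarith
    filter_upwards [(isOpen_half c0).mem_nhds hz1] with z hz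
    exact D.eq z hz

theorem real_arg {w : ℝ} : -((w : ℂ) * lapC a w) = ((-(w * lap a w) : ℝ) : ℂ) := by
  rw [lapC_ofReal]
  push_cast
  ring

theorem D1.real_eq (D : D1 a Φ c0) {s : ℝ} (hs : 0 ≤ s) (h : ∀ w > s, LInt a w) {w : ℝ}
    (hw : s < w) : Φ w = ((Real.exp (-(w * lap a w)) : ℝ) : ℂ) := by
  rw [D.eq_of_conv hs h w (by simpa using hw), real_arg, Complex.ofReal_exp]

/-- **Core lemma.** `ε (κ - a) ≥ 0`, the Laplace integral of `κ` converges to the right of `w0`
and `Φ` does not vanish at the abscissa of convergence. -/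
theorem D1.core (D : D1 a Φ c0) {w0 : ℝ} (hw0 : 0 ≤ w0) {κ : ℝ → ℝ} (hκ : Measurable κ)
    (hκi : ∀ w > w0, LInt κ w) {ε : ℝ} (hε : ε = 1 ∨ ε = -1)
    (hb : ∀ u, 0 < u → 0 ≤ ε * (κ u - a u))
    (hne : ∀ s > w0, (∀ w > s, LInt a w) → Φ s ≠ 0) :
    ∀ w > w0, LInt a w := by
  set T : Set ℝ := {w | w0 ≤ w ∧ ∀ w' > w, LInt a w'} with hT
  have hTne : T.Nonempty := ⟨max w0 c0, le_max_left _ _, fun w' hw' =>
    D.int w' (lt_of_le_of_lt (le_max_right _ _) hw')⟩
  have hTb : BddBelow T := ⟨w0, fun w hw => hw.1⟩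
  set s := sInf T with hs
  have hs0 : w0 ≤ s := le_csInf hTne fun w hw => hw.1
  have hconv : ∀ w > s, LInt a w := by
    intro w hw
    obtain ⟨t, ht, htw⟩ := exists_lt_of_csInf_lt hTne hw
    exact ht.2 w htw
  rcases hs0.eq_or_lt with h0 | h0
  · rw [h0]; exact hconv
  exfalso
  have hspos : 0 < s := by linarith
  set b : ℝ → ℝ := fun u => ε * (κ u - a u) with hbdef
  have hbm : Measurable b := (hκ.sub D.meas).const_mul ε
  have hbi : ∀ w > s, LInt b w := fun w hw =>
    ((hκi w (by linarith)).sub (hconv w hw)).const_mul ε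
  have hcs : ContinuousAt Φ (s : ℂ) := (D.hΦ s (by simpa using hspos)).continuousAt
  -- `Φ s` is real and positive
  have hcont : Tendsto (fun w : ℝ => Φ w) (𝓝[>] s) (𝓝 (Φ s)) := by
    have h1 : Tendsto (fun w : ℝ => (w : ℂ)) (𝓝[>] s) (𝓝 (s : ℂ)) :=
      tendsto_nhdsWithin_of_tendsto_nhds (Complex.continuous_ofReal.tendsto s)
    exact hcs.tendsto.comp h1
  have hreal : ∀ᶠ w : ℝ in 𝓝[>] s, Φ w = ((Real.exp (-(w * lap a w)) : ℝ) : ℂ) := by
    filter_upwards [self_mem_nhdsWithin] with w hw
    exact D.real_eq (by linarith) hconv hw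
  have him : (Φ s).im = 0 := by
    have h1 : Tendsto (fun w : ℝ => (Φ w).im) (𝓝[>] s) (𝓝 (Φ s).im) :=
      (Complex.continuous_im.tendsto _).comp hcont
    have h2 : Tendsto (fun w : ℝ => (Φ w).im) (𝓝[>] s) (𝓝 0) := by
      refine tendsto_const_nhds.congr' ?_
      filter_upwards [hreal] with w hw
      rw [hw, Complex.ofReal_im]
    exact tendsto_nhds_unique h1 h2
  have hre : 0 ≤ (Φ s).re := by
    have h1 : Tendsto (fun w : ℝ => (Φ w).re) (𝓝[>] s) (𝓝 (Φ s).re) :=
      (Complex.continuous_re.tendsto _).comp hcont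
    refine ge_of_tendsto h1 ?_
    filter_upwards [hreal] with w hw
    rw [hw, Complex.ofReal_re]
    exact (Real.exp_pos _).le
  have hsl : Φ s ∈ Complex.slitPlane := by
    left
    refine lt_of_le_of_ne hre fun h => hne s h0 hconv ?_
    exact Complex.ext h.symm him
  -- the analytic continuation
  set g : ℂ → ℂ := fun z =>
    (ε : ℂ) * (lapC κ (-z) + Complex.log (Φ (-z)) / (-z)) with hg
  have hsC : ((-s : ℝ) : ℂ) ≠ 0 := by
    exact_mod_cast (neg_ne_zero.mpr hspos.ne')
  have hga : AnalyticAt ℂ g ((-s : ℝ) : ℂ) := by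
    have hopen : ∀ᶠ z in 𝓝 ((-s : ℝ) : ℂ), DifferentiableAt ℂ g z := by
      have e1 : ∀ᶠ z in 𝓝 ((-s : ℝ) : ℂ), w0 < (-z).re := by
        have : IsOpen {z : ℂ | w0 < (-z).re} :=
          isOpen_lt continuous_const (Complex.continuous_re.comp continuous_neg)
        exact this.mem_nhds (by simpa using h0)
      have e2 : ∀ᶠ z in 𝓝 ((-s : ℝ) : ℂ), Φ (-z) ∈ Complex.slitPlane := by
        have hc : ContinuousAt (fun z => Φ (-z)) ((-s : ℝ) : ℂ) := by
          refine ContinuousAt.comp (g := Φ) (f := fun z : ℂ => -z) ?_ continuous_neg.continuousAt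
          have : -((-s : ℝ) : ℂ) = (s : ℂ) := by push_cast; ring
          rw [this]
          exact hcs
        apply hc.eventually_mem
        have : Φ (-((-s : ℝ) : ℂ)) = Φ s := by
          congr 1; push_cast; ring
        rw [this]
        exact Complex.isOpen_slitPlane.mem_nhds hsl
      have e3 : ∀ᶠ z in 𝓝 ((-s : ℝ) : ℂ), z ≠ 0 := eventually_ne_nhds hsC
      filter_upwards [e1, e2, e3] with z h1 h2 h3
      have hneg : DifferentiableAt ℂ (fun z : ℂ => -z) z := differentiable_neg.differentiableAt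
      refine DifferentiableAt.const_mul ?_ _
      refine DifferentiableAt.add ?_ (DifferentiableAt.div ?_ hneg (neg_ne_zero.mpr h3))
      · exact DifferentiableAt.comp (g := lapC κ) z (lapC_differentiableAt hκ hκi h1) hneg
      · exact DifferentiableAt.clog (DifferentiableAt.comp (g := Φ) z
          (D.hΦ (-z) (lt_of_le_of_lt hw0 h1)) hneg) h2
    exact Complex.analyticAt_iff_eventually_differentiableAt.mpr hopen
  have hgr : AnalyticAt ℝ (fun t : ℝ => (g t).re) (-s) := hga.re_ofReal
  obtain ⟨t, hts, ht⟩ := landau (X := id) (μ := dens b) (dens_pos b hbm) hgr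
    (fun t ht => (mem_integrableExpSet_dens hbm hb t).mpr (hbi (-t) (by linarith))) (by
      filter_upwards [self_mem_nhdsWithin] with t ht
      have ht' : t < -s := ht
      have hw : s < -t := by linarith
      rw [mgf_dens hbm hb]
      have h1 : Φ (((-t : ℝ) : ℂ)) = _ := D.real_eq (by linarith) hconv hw
      have h2 : Complex.log (Φ (((-t : ℝ) : ℂ))) = ((-((-t) * lap a (-t)) : ℝ) : ℂ) := by
        rw [h1, Complex.ofReal_exp, Complex.log_exp]
        · rw [Complex.ofReal_im]; linarith [Real.pi_pos]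
        · rw [Complex.ofReal_im]; exact Real.pi_pos.le
      have h4 : g (t : ℂ) = ((ε * (lap κ (-t) - lap a (-t)) : ℝ) : ℂ) := by
        rw [hg]
        simp only []
        have e : -(t : ℂ) = ((-t : ℝ) : ℂ) := by push_cast; ring
        rw [e, h2, lapC_ofReal]
        have hne' : ((-t : ℝ) : ℂ) ≠ 0 := by
          have : (-t : ℝ) ≠ 0 := by linarith
          exact_mod_cast this
        have h5 : (((-((-t) * lap a (-t)) : ℝ)) : ℂ) / ((-t : ℝ) : ℂ) = ((-lap a (-t) : ℝ) : ℂ) := by
          rw [div_eq_iff hne']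
          push_cast
          ring
        rw [h5]
        push_cast
        ring
      rw [h4, Complex.ofReal_re, hbdef, lap_const_mul, lap_sub (hκi _ (by linarith)) (hconv _ hw)])
  -- contradiction
  have ht1 : LInt b (-t) := (mem_integrableExpSet_dens hbm hb t).mp ht
  set t' : ℝ := max (-t) ((w0 + s) / 2) with ht'
  have h5 : t' < s := max_lt (by linarith) (by linarith)
  have h6 : t' ∈ T := by
    refine ⟨le_trans (by linarith) (le_max_right _ _), fun w' hw' => ?_⟩
    have h7 : LInt b w' := ht1.mono hbm (le_trans (le_max_left _ _) hw'.le)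
    have h8 : LInt κ w' := hκi w' (lt_of_lt_of_le (by linarith) (le_trans (le_max_right _ _) hw'.le))
    have h9 := h8.sub (h7.const_mul ε)
    have h10 : (fun u => κ u - ε * b u) = a := by
      funext u
      rw [hbdef]
      simp only []
      rcases hε with h | h <;> rw [h] <;> ring
    rwa [h10] at h9
  have := csInf_le hTb h6
  linarith

/-- upper bounds `a ≤ κ` suffice without any hypothesis on zeros -/
theorem D1.core_upper (D : D1 a Φ c0) {w0 : ℝ} (hw0 : 0 ≤ w0) {κ : ℝ → ℝ}
    (hκ : Measurable κ) (hκi : ∀ w > w0, LInt κ w) (hb : ∀ u, 0 < u → a u ≤ κ u) :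
    ∀ w > w0, LInt a w := by
  refine D.core hw0 hκ hκi (Or.inl rfl) (fun u hu => by have := hb u hu; linarith) ?_
  intro s hs hconv h0
  have hspos : 0 < s := by linarith
  have hcs : ContinuousAt Φ (s : ℂ) := (D.hΦ s (by simpa using hspos)).continuousAt
  -- lower bound for `Φ w`
  have hcont : Tendsto (fun w : ℝ => ‖Φ w‖) (𝓝[>] s) (𝓝 ‖Φ s‖) := by
    have h1 : Tendsto (fun w : ℝ => (w : ℂ)) (𝓝[>] s) (𝓝 (s : ℂ)) :=
      tendsto_nhdsWithin_of_tendsto_nhds (Complex.continuous_ofReal.tendsto s)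
    exact (hcs.tendsto.comp h1).norm
  have hlow : ContinuousAt (fun w : ℝ => Real.exp ((-((w : ℂ) * lapC κ w)).re)) s := by
    refine ContinuousAt.rexp ?_
    refine Complex.continuous_re.continuousAt.comp ?_
    have h1 : ContinuousAt (fun z : ℂ => -(z * lapC κ z)) (s : ℂ) := by
      refine DifferentiableAt.continuousAt (𝕜 := ℂ) ?_
      exact (differentiableAt_id.mul (lapC_differentiableAt hκ hκi (by simpa using hs))).neg
    exact ContinuousAt.comp (f := fun w : ℝ => (w : ℂ)) h1 Complex.continuous_ofReal.continuousAt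
  have hlow' : Tendsto (fun w : ℝ => Real.exp ((-((w : ℂ) * lapC κ w)).re)) (𝓝[>] s)
      (𝓝 (Real.exp ((-((s : ℂ) * lapC κ s)).re))) :=
    tendsto_nhdsWithin_of_tendsto_nhds hlow
  have hle : Real.exp ((-((s : ℂ) * lapC κ s)).re) ≤ ‖Φ s‖ := by
    refine le_of_tendsto_of_tendsto hlow' hcont ?_
    filter_upwards [self_mem_nhdsWithin] with w hw
    have hw' : s < w := hw
    rw [D.real_eq (by linarith) hconv hw', Complex.norm_real, Real.norm_of_nonneg (Real.exp_pos _).le]
    apply Real.exp_le_exp.mpr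
    rw [real_arg, Complex.ofReal_re]
    have h1 : lap a w ≤ lap κ w := by
      have := lap_nonneg (f := fun u => κ u - a u) (fun u hu => by have := hb u hu; linarith) w
      rw [lap_sub (hκi w (by linarith)) (hconv w hw')] at this
      linarith
    have : w * lap a w ≤ w * lap κ w := mul_le_mul_of_nonneg_left h1 (by linarith)
    linarith
  rw [h0, norm_zero] at hle
  exact absurd hle (not_le.mpr (Real.exp_pos _))

end Pool.Agent.H125b.BR
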