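import Pool.Agent.H125b.BR.Sys
import Pool.Agent.W263.BSD.Lead7

/-!
# Brackets for positive functions: the form used in the results
-/

set_option autoImplicit false

namespace Pool.Agent.H125b.BR

open MeasureTheory Filter Topology Set Complex
open Pool.Agent.TH942.ES
open Pool.Agent.TH270.MS (Pl)
open Pool.Agent.Q5.MS (Pv Sq)

/-- `F` has no zeros in the half plane `Re s > 1`. -/
def NoZeros (F : ℂ → ℂ) : Prop := ∀ s : ℂ, 1 < s.re → F s ≠ 0

/-- `F` has no real zeros `> 1`. -/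
def NoRealZeros (F : ℂ → ℂ) : Prop := ∀ s : ℝ, 1 < s → F s ≠ 0

/-- The order of magnitude of `F` at `s = 1` from the right: `|F(1 + w)| / w ^ ρ → A` for real `w → 0+`. -/
def Leading (F : ℂ → ℂ) (ρ A : ℝ) : Prop :=
  Tendsto (fun w : ℝ => ‖F (1 + w)‖ / w ^ ρ) (𝓝[>] 0) (𝓝 A)

/-- The positive function `P` brackets `T (log y)^ρ`:
* `limsup P(y)/(log y)^ρ ≥ T`;
* `liminf P(y)/(log y)^ρ ≤ T` if `F` has no real zeros `> 1`;
* if `P(y) ≤ C (log y)^k` for all large `y`, then `F` has no zeros with `Re s > 1` and `ρ ≤ k`, and `T ≤ C` in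
  the case `k = ρ`;
* if `P(y) ≥ c (log y)^k`, `c > 0`, for all large `y` and `F` has no real zeros `> 1`, then `F` has no zeros with
  `Re s > 1` and `k ≤ ρ`, and `c ≤ T` in the case `k = ρ`. -/
structure Brackets (F : ℂ → ℂ) (P : ℝ → ℝ) (ρ T : ℝ) : Prop where
  upper : ∀ ε : ℝ, 0 < ε → ∃ᶠ y : ℝ in atTop, (T - ε) * (Real.log y) ^ ρ < P y
  lower : NoRealZeros F → ∀ ε : ℝ, 0 < ε → ∃ᶠ y : ℝ in atTop, P y < (T + ε) * (Real.log y) ^ ρ
  of_le : ∀ k C : ℝ, (∀ᶠ y : ℝ in atTop, P y ≤ C * (Real.log y) ^ k) →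
    NoZeros F ∧ ρ ≤ k ∧ (k = ρ → T ≤ C)
  of_ge : NoRealZeros F → ∀ k c : ℝ, 0 < c → (∀ᶠ y : ℝ in atTop, c * (Real.log y) ^ k ≤ P y) →
    NoZeros F ∧ k ≤ ρ ∧ (k = ρ → c ≤ T)

/-- The last two parts of `Brackets` without the constant. -/
structure OrderBounds (F : ℂ → ℂ) (P : ℝ → ℝ) (ρ : ℝ) : Prop where
  of_le : ∀ k C : ℝ, (∀ᶠ y : ℝ in atTop, P y ≤ C * (Real.log y) ^ k) → NoZeros F ∧ ρ ≤ k
  of_ge : NoRealZeros F → ∀ k c : ℝ, 0 < c → (∀ᶠ y : ℝ in atTop, c * (Real.log y) ^ k ≤ P y) →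
    NoZeros F ∧ k ≤ ρ

theorem noZeros_iff (F : ℂ → ℂ) : NoZeros F ↔ ∀ s : ℂ, 0 < s.re → F (1 + s) ≠ 0 := by
  refine ⟨fun h s hs => h _ (by simpa using hs), fun h s hs => ?_⟩
  have := h (s - 1) (by simpa using hs)
  rwa [add_sub_cancel] at this

theorem noReal_iff (F : ℂ → ℂ) : NoRealZeros F ↔ ∀ w : ℝ, 0 < w → F (1 + w) ≠ 0 := by
  constructor
  · intro h w hw
    have := h (1 + w) (by linarith)
    push_cast at this
    exact this
  · intro h s hs
    have := h (s - 1) (by linarith)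
    push_cast at this
    rwa [add_sub_cancel] at this

variable {P : ℝ → ℝ} {ρ A T c k C : ℝ}

/-- `log (T (log y)^ρ)` -/
theorem log_T (hT : 0 < T) {y : ℝ} (hy : Real.exp 1 ≤ y) :
    Real.log (T * (Real.log y) ^ ρ) = Real.log T + ρ * Real.log (Real.log y) := by
  have hl : 0 < Real.log y := by linarith [Pool.Agent.TH270.MS.one_le_log hy]
  rw [Real.log_mul hT.ne' (Real.rpow_pos_of_pos hl ρ).ne', Real.log_rpow hl]

theorem exists_small (hT : 0 < T) {ε : ℝ} (hε : 0 < ε) : ∃ η : ℝ, 0 < η ∧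
    T - ε ≤ T * Real.exp (-η) ∧ T * Real.exp η ≤ T + ε := by
  obtain ⟨η, h1, h2, h3⟩ := Pool.Agent.W263.BSD.exp_bracket hT hε
  exact ⟨2 * η, by linarith, h2, h3⟩

theorem up_exp (hP : ∀ y, 0 < P y) (hT : 0 < T)
    (h : ∀ ε : ℝ, 0 < ε → ∃ᶠ y : ℝ in atTop,
      Real.log T + ρ * Real.log (Real.log y) - ε < Real.log (P y)) (ε : ℝ) (hε : 0 < ε) :
    ∃ᶠ y : ℝ in atTop, (T - ε) * (Real.log y) ^ ρ < P y := by
  obtain ⟨η, hη, h1, -⟩ := exists_small hT hε
  refine ((h η hη).and_eventually (eventually_ge_atTop (Real.exp 1))).mono fun y hy => ?_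
  obtain ⟨h2, h3⟩ := hy
  have hl : 0 < Real.log y := by linarith [Pool.Agent.TH270.MS.one_le_log h3]
  have h4 := Real.rpow_pos_of_pos hl ρ
  rw [← log_T hT h3, Real.lt_log_iff_exp_lt (hP y), Real.exp_sub,
    Real.exp_log (mul_pos hT h4)] at h2
  refine lt_of_le_of_lt ?_ h2
  have h5 : T * (Real.log y) ^ ρ / Real.exp η = (T * Real.exp (-η)) * (Real.log y) ^ ρ := by
    rw [Real.exp_neg]
    field_simp
  rw [h5]
  exact mul_le_mul_of_nonneg_right h1 h4.le

theorem down_exp (hP : ∀ y, 0 < P y) (hT : 0 < T)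
    (h : ∀ ε : ℝ, 0 < ε → ∃ᶠ y : ℝ in atTop,
      Real.log (P y) < Real.log T + ρ * Real.log (Real.log y) + ε) (ε : ℝ) (hε : 0 < ε) :
    ∃ᶠ y : ℝ in atTop, P y < (T + ε) * (Real.log y) ^ ρ := by
  obtain ⟨η, hη, -, h1⟩ := exists_small hT hε
  refine ((h η hη).and_eventually (eventually_ge_atTop (Real.exp 1))).mono fun y hy => ?_
  obtain ⟨h2, h3⟩ := hy
  have hl : 0 < Real.log y := by linarith [Pool.Agent.TH270.MS.one_le_log h3]
  have h4 := Real.rpow_pos_of_pos hl ρ
  rw [← log_T hT h3, Real.log_lt_iff_lt_exp (hP y), Real.exp_add,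
    Real.exp_log (mul_pos hT h4)] at h2
  refine lt_of_lt_of_le h2 ?_
  have h5 : T * (Real.log y) ^ ρ * Real.exp η = (T * Real.exp η) * (Real.log y) ^ ρ := by ring
  rw [h5]
  exact mul_le_mul_of_nonneg_right h1 h4.le

theorem le_log (hP : ∀ y, 0 < P y) (h : ∀ᶠ y : ℝ in atTop, P y ≤ C * (Real.log y) ^ k) :
    0 < C ∧ ∀ᶠ y : ℝ in atTop, Real.log (P y) ≤ k * Real.log (Real.log y) + Real.log C := by
  have hC : 0 < C := by
    obtain ⟨y, h1, h2⟩ := (h.and (eventually_ge_atTop (Real.exp 1))).exists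
    have hl : 0 < Real.log y := by linarith [Pool.Agent.TH270.MS.one_le_log h2]
    have h4 := Real.rpow_pos_of_pos hl k
    have h5 : 0 < C * (Real.log y) ^ k := (hP y).trans_le h1
    by_contra hcon
    push Not at hcon
    have := mul_nonpos_of_nonpos_of_nonneg hcon h4.le
    linarith
  refine ⟨hC, ?_⟩
  filter_upwards [h, eventually_ge_atTop (Real.exp 1)] with y h1 h2
  have h3 := Real.log_le_log (hP y) h1
  rw [log_T hC h2] at h3
  linarith

theorem ge_log {c : ℝ} (hc : 0 < c) (h : ∀ᶠ y : ℝ in atTop, c * (Real.log y) ^ k ≤ P y) :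
    ∀ᶠ y : ℝ in atTop, k * Real.log (Real.log y) + Real.log c ≤ Real.log (P y) := by
  filter_upwards [h, eventually_ge_atTop (Real.exp 1)] with y h1 h2
  have hl : 0 < Real.log y := by linarith [Pool.Agent.TH270.MS.one_le_log h2]
  have h4 := Real.rpow_pos_of_pos hl k
  have h3 := Real.log_le_log (mul_pos hc h4) h1
  rw [log_T hc h2] at h3
  linarith

theorem log_const (hA : 0 < A) (c : ℝ) :
    Real.log (Real.exp (ρ * Real.eulerMascheroniConstant - c) / A) =
      ρ * Real.eulerMascheroniConstant - Real.log A - c := by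
  rw [Real.log_div (Real.exp_pos _).ne' hA.ne', Real.log_exp]
  ring

variable {X : Type} {d : ℕ} {N : X → ℕ} {α : X → Fin d → ℂ} {F : ℂ → ℂ}

/-- **Brackets by the product with the prime powers.** -/
theorem brackets_star (H : Br N α (fun s => F (1 + s))) (hA : 0 < A) (hL : Leading F ρ A)
    (hP : ∀ y, 0 < P y) (hl : ∀ y, Real.log (P y) = -Pl N α y) :
    Brackets F P ρ (Real.exp (ρ * Real.eulerMascheroniConstant) / A) := by
  have hT : 0 < Real.exp (ρ * Real.eulerMascheroniConstant) / A := div_pos (Real.exp_pos _) hA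
  have hlT : Real.log (Real.exp (ρ * Real.eulerMascheroniConstant) / A) =
      ρ * Real.eulerMascheroniConstant - Real.log A := by
    have := log_const (ρ := ρ) hA 0
    rwa [sub_zero, sub_zero] at this
  have up : ∀ ε : ℝ, 0 < ε → ∃ᶠ Y : ℝ in atTop, Ev ρ A Y - ε < Real.log (P Y) := by
    intro ε hε
    simp only [hl]
    exact H.upper hA hL hε
  have down : NoRealZeros F → ∀ ε : ℝ, 0 < ε → ∃ᶠ Y : ℝ in atTop, Real.log (P Y) < Ev ρ A Y + ε := by
    intro hne ε hε
    simp only [hl]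
    exact H.lower ((noReal_iff F).1 hne) hA hL hε
  refine ⟨up_exp hP hT fun ε hε => (up ε hε).mono fun y hy => ?_,
    fun hne => down_exp hP hT fun ε hε => (down hne ε hε).mono fun y hy => ?_,
    fun k C h => ?_, fun hne k c hc h => ?_⟩
  · rw [hlT]
    unfold Ev at hy
    linarith
  · rw [hlT]
    unfold Ev at hy
    linarith
  · obtain ⟨hC, h1⟩ := le_log hP h
    obtain ⟨h2, h3⟩ := cmp_upper up h1
    refine ⟨(noZeros_iff F).2 (H.no_zeros_upper (k := k) (C := Real.log C) ?_), h2, fun hk => ?_⟩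
    · simpa only [hl] using h1
    · rw [← Real.log_le_log_iff hT hC, hlT]
      exact h3 hk
  · have h1 := ge_log hc h
    obtain ⟨h2, h3⟩ := cmp_lower (down hne) h1
    refine ⟨(noZeros_iff F).2 (H.no_zeros_lower ((noReal_iff F).1 hne) (k := k) (C := Real.log c) ?_),
      h2, fun hk => ?_⟩
    · simpa only [hl] using h1
    · rw [← Real.log_le_log_iff hc hT, hlT]
      exact h3 hk

/-- **Brackets by the product over the primes.** -/
theorem brackets_prime (H : Br N α (fun s => F (1 + s))) (hA : 0 < A) (hL : Leading F ρ A)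
    (hP : ∀ y, 0 < P y) (hl : ∀ y, Real.log (P y) = Pv N α y) (hc : Tendsto (Sq N α) atTop (𝓝 c)) :
    Brackets F P ρ (Real.exp (ρ * Real.eulerMascheroniConstant - c) / A) := by
  have hT : 0 < Real.exp (ρ * Real.eulerMascheroniConstant - c) / A := div_pos (Real.exp_pos _) hA
  have hlT := log_const (ρ := ρ) hA c
  have up : ∀ ε : ℝ, 0 < ε → ∃ᶠ Y : ℝ in atTop, Ev ρ A Y - ε < Real.log (P Y) + c := by
    intro ε hε
    simp only [hl]
    exact H.upper_prime hA hL hc hε
  have down : NoRealZeros F → ∀ ε : ℝ, 0 < ε →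
      ∃ᶠ Y : ℝ in atTop, Real.log (P Y) + c < Ev ρ A Y + ε := by
    intro hne ε hε
    simp only [hl]
    exact H.lower_prime ((noReal_iff F).1 hne) hA hL hc hε
  refine ⟨up_exp hP hT fun ε hε => (up ε hε).mono fun y hy => ?_,
    fun hne => down_exp hP hT fun ε hε => (down hne ε hε).mono fun y hy => ?_,
    fun k C h => ?_, fun hne k c' hc' h => ?_⟩
  · rw [hlT]
    unfold Ev at hy
    linarith
  · rw [hlT]
    unfold Ev at hy
    linarith
  · obtain ⟨hC, h1⟩ := le_log hP h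
    obtain ⟨h2, h3⟩ := cmp_upper (f := fun y => Real.log (P y) + c) (k := k) (C := Real.log C + c) up
      (h1.mono fun y hy => by linarith)
    refine ⟨(noZeros_iff F).2 (H.no_zeros_upper_prime (k := k) (C := Real.log C) ?_), h2, fun hk => ?_⟩
    · simpa only [hl] using h1
    · rw [← Real.log_le_log_iff hT hC, hlT]
      linarith [h3 hk]
  · have h1 := ge_log hc' h
    obtain ⟨h2, h3⟩ := cmp_lower (f := fun y => Real.log (P y) + c) (k := k) (C := Real.log c' + c)
      (down hne) (h1.mono fun y hy => by linarith)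
    refine ⟨(noZeros_iff F).2 (H.no_zeros_lower_prime ((noReal_iff F).1 hne) (k := k)
      (C := Real.log c') ?_), h2, fun hk => ?_⟩
    · simpa only [hl] using h1
    · rw [← Real.log_le_log_iff hc' hT, hlT]
      linarith [h3 hk]

/-- the order by the product over the primes, without a hypothesis on the squares -/
theorem order_prime (H : Br N α (fun s => F (1 + s))) (hA : 0 < A) (hL : Leading F ρ A)
    (hP : ∀ y, 0 < P y) (hl : ∀ y, Real.log (P y) = Pv N α y) : OrderBounds F P ρ := by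
  refine ⟨fun k C h => ?_, fun hne k c hc h => ?_⟩
  · obtain ⟨-, h1⟩ := le_log hP h
    simp only [hl] at h1
    exact ⟨(noZeros_iff F).2 (H.no_zeros_upper_prime h1), H.order_upper_prime hA hL h1⟩
  · have h1 := ge_log hc h
    simp only [hl] at h1
    have hne' := (noReal_iff F).1 hne
    exact ⟨(noZeros_iff F).2 (H.no_zeros_lower_prime hne' h1), H.order_lower_prime hne' hA hL h1⟩

end Pool.Agent.H125b.BR
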