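import Pool.Agent.H125b.BR.Bracket
import Pool.Agent.Q5.MS.Lead

/-!
# Brackets for the leading coefficient by the sharp partial Euler products of a system of primes
-/

set_option autoImplicit false

namespace Pool.Agent.H125b.BR

open MeasureTheory Filter Topology Set Complex
open Pool.Agent.TH942.ES
open Pool.Agent.TH942.SL
open Pool.Agent.TH942.LS (Dat)
open Pool.Agent.TH270.MS
open Pool.Agent.TH270.RS (cS' dat' DD_neg)
open Pool.Agent.Q5.MS (Pv Sq close tail_lim)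
open Pool.Agent.W263.BSD (LInt lapC)

variable {X : Type} {d : ℕ} {N : X → ℕ} {α : X → Fin d → ℂ} {Ψ : ℂ → ℂ}

/-- `Ψ` continues the Euler product to the half plane `Re s > 0` -/
structure Br (N : X → ℕ) (α : X → Fin d → ℂ) (Ψ : ℂ → ℂ) : Prop where
  E : Sys N α
  hreal : ∀ v k, (∑ i, zv N α v i ^ k).im = 0
  hd : ∀ s : ℂ, 0 < s.re → DifferentiableAt ℂ Ψ s
  hL : ∀ s : ℂ, 1 / 2 < s.re → Ψ s = LE N α s

theorem lapC_sh {lam c : ℕ → ℝ} {δ σ : ℝ} (D : Dat lam c δ σ) {s : ℂ} (hs : σ < s.re) :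
    s * lapC (Sh lam c) s = DD lam c s := by
  have hs0 : s ≠ 0 := by
    rintro rfl
    have := D.σ0
    simp at hs
    linarith
  have h1 : lapC (Sh lam c) s = ∫ T : ℝ, (Sh lam c T : ℂ) * exp (-(s * T)) := by
    unfold lapC
    refine setIntegral_eq_integral_of_forall_compl_eq_zero fun T hT => ?_
    have hT0 : T ≤ 0 := not_lt.1 hT
    rw [sh_zero D (by linarith [D.δ0]), Complex.ofReal_zero, zero_mul]
  rw [h1, sh_lap D hs, mul_div_cancel₀ _ hs0]

theorem sh_LInt {lam c : ℕ → ℝ} {δ σ : ℝ} (D : Dat lam c δ σ) {w : ℝ} (hw : σ < w) :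
    LInt (Sh lam c) w := by
  have h1 := (sh_int D (s := (w : ℂ)) (by simpa using hw)).re
  unfold LInt
  refine (h1.integrableOn (s := Ioi 0)).congr_fun (fun u _ => ?_) measurableSet_Ioi
  show (((Sh lam c u : ℂ) * exp (-((w : ℂ) * u)))).re = _
  have h2 : exp (-((w : ℂ) * u)) = ((Real.exp (-(w * u)) : ℝ) : ℂ) := by
    push_cast
    rfl
  rw [h2, ← Complex.ofReal_mul, Complex.ofReal_re]

theorem sh_loc {lam c : ℕ → ℝ} {δ σ : ℝ} (D : Dat lam c δ σ) : Loc (Sh lam c) := by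
  intro U
  refine ⟨Real.exp (σ * U) * ∑' n, |c n| * Real.exp (-(σ * lam n)), fun u _ hu => ?_⟩
  refine (sh_le D u).trans ?_
  have h1 : 0 ≤ ∑' n, |c n| * Real.exp (-(σ * lam n)) := tsum_nonneg fun n => by positivity
  refine mul_le_mul_of_nonneg_right (Real.exp_le_exp.2 ?_) h1
  exact mul_le_mul_of_nonneg_left hu D.σ0.le

/-- the data for the general theorems -/
theorem Br.d1 (H : Br N α Ψ) : ∃ a : ℝ → ℝ, Loc a ∧ D1 a Ψ 1 ∧
    ∀ u : ℝ, a u = -Pl N α (Real.exp u) := by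
  have E := H.E
  have := E.cnt
  obtain ⟨e, he⟩ := Countable.exists_injective_nat (X × ℕ)
  have D := dat' E he
  refine ⟨Sh (lamS N e) (cS' N α e), sh_loc D, ⟨sh_meas D, zero_le_one, fun w hw => sh_LInt D hw,
    H.hd, fun z hz => ?_⟩, fun u => sh_eq E he u⟩
  rw [lapC_sh D hz, DD_neg, E.exp_DD H.hreal he (by linarith), H.hL z (by linarith)]

/-- the expected value of `log P*(Y)` -/
noncomputable def Ev (ρ A Y : ℝ) : ℝ :=
  ρ * (Real.eulerMascheroniConstant + Real.log (Real.log Y)) - Real.log A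

theorem freq_exp {p : ℝ → Prop} (h : ∃ᶠ u : ℝ in atTop, p (Real.exp u)) : ∃ᶠ Y : ℝ in atTop, p Y :=
  Real.tendsto_exp_atTop.frequently h

/-- **The upper bracket** for the sharp partial Euler products with the prime powers. -/
theorem Br.upper (H : Br N α Ψ) {ρ A : ℝ} (hA : 0 < A)
    (hlim : Tendsto (fun w : ℝ => ‖Ψ w‖ / w ^ ρ) (𝓝[>] 0) (𝓝 A)) {ε : ℝ} (hε : 0 < ε) :
    ∃ᶠ Y : ℝ in atTop, Ev ρ A Y - ε < -Pl N α Y := by
  obtain ⟨a, hl, D, ha⟩ := H.d1
  refine freq_exp ((D.bracket_upper hl hA hlim hε).mono fun u hu => ?_)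
  unfold Ev
  rw [Real.log_exp, ← ha]
  exact hu

/-- **The lower bracket** for the sharp partial Euler products with the prime powers. -/
theorem Br.lower (H : Br N α Ψ) (hne : ∀ w : ℝ, 0 < w → Ψ w ≠ 0) {ρ A : ℝ} (hA : 0 < A)
    (hlim : Tendsto (fun w : ℝ => ‖Ψ w‖ / w ^ ρ) (𝓝[>] 0) (𝓝 A)) {ε : ℝ} (hε : 0 < ε) :
    ∃ᶠ Y : ℝ in atTop, -Pl N α Y < Ev ρ A Y + ε := by
  obtain ⟨a, hl, D, ha⟩ := H.d1
  refine freq_exp ((D.bracket_lower hl hne hA hlim hε).mono fun u hu => ?_)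
  unfold Ev
  rw [Real.log_exp, ← ha]
  exact hu

/-- an upper bound for the partial products excludes all zeros -/
theorem Br.no_zeros_upper (H : Br N α Ψ) {k C : ℝ}
    (h : ∀ᶠ Y : ℝ in atTop, -Pl N α Y ≤ k * Real.log (Real.log Y) + C) :
    ∀ s : ℂ, 0 < s.re → Ψ s ≠ 0 := by
  obtain ⟨a, hl, D, ha⟩ := H.d1
  have h1 := D.conv_upper hl (k := k) (C := C) (by
    filter_upwards [Real.tendsto_exp_atTop.eventually h] with u hu
    rw [ha]
    rwa [Real.log_exp] at hu)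
  exact fun s hs => D.ne_of_conv h1 hs

/-- a lower bound for the partial products excludes all zeros if there are no positive zeros -/
theorem Br.no_zeros_lower (H : Br N α Ψ) (hne : ∀ w : ℝ, 0 < w → Ψ w ≠ 0) {k C : ℝ}
    (h : ∀ᶠ Y : ℝ in atTop, k * Real.log (Real.log Y) + C ≤ -Pl N α Y) :
    ∀ s : ℂ, 0 < s.re → Ψ s ≠ 0 := by
  obtain ⟨a, hl, D, ha⟩ := H.d1
  have h1 := D.conv_lower hl hne (k := k) (C := C) (by
    filter_upwards [Real.tendsto_exp_atTop.eventually h] with u hu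
    rw [ha]
    rwa [Real.log_exp] at hu)
  exact fun s hs => D.ne_of_conv h1 hs

theorem loglog_top : Tendsto (fun Y : ℝ => Real.log (Real.log Y)) atTop atTop :=
  Real.tendsto_log_atTop.comp Real.tendsto_log_atTop

/-- consequences of an upper bound for a function with the upper bracket -/
theorem cmp_upper {f : ℝ → ℝ} {ρ A k C : ℝ}
    (hb : ∀ ε : ℝ, 0 < ε → ∃ᶠ Y : ℝ in atTop, Ev ρ A Y - ε < f Y)
    (h : ∀ᶠ Y : ℝ in atTop, f Y ≤ k * Real.log (Real.log Y) + C) :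
    ρ ≤ k ∧ (k = ρ → ρ * Real.eulerMascheroniConstant - Real.log A ≤ C) := by
  have key : ∀ ε : ℝ, 0 < ε → ∃ᶠ Y : ℝ in atTop,
      (ρ - k) * Real.log (Real.log Y) < C + Real.log A - ρ * Real.eulerMascheroniConstant + ε := by
    intro ε hε
    refine ((hb ε hε).and_eventually h).mono fun Y hY => ?_
    obtain ⟨h1, h2⟩ := hY
    unfold Ev at h1
    linarith
  constructor
  · by_contra hcon
    push Not at hcon
    have h1 : Tendsto (fun Y : ℝ => (ρ - k) * Real.log (Real.log Y)) atTop atTop :=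
      loglog_top.const_mul_atTop (by linarith)
    obtain ⟨Y, h2, h3⟩ := ((key 1 one_pos).and_eventually (h1.eventually_ge_atTop
      (C + Real.log A - ρ * Real.eulerMascheroniConstant + 1))).exists
    linarith
  · intro hk
    by_contra hcon
    push Not at hcon
    obtain ⟨Y, h2⟩ := (key _ (sub_pos.2 hcon)).exists
    rw [hk, sub_self, zero_mul] at h2
    linarith

/-- consequences of a lower bound for a function with the lower bracket -/
theorem cmp_lower {f : ℝ → ℝ} {ρ A k C : ℝ}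
    (hb : ∀ ε : ℝ, 0 < ε → ∃ᶠ Y : ℝ in atTop, f Y < Ev ρ A Y + ε)
    (h : ∀ᶠ Y : ℝ in atTop, k * Real.log (Real.log Y) + C ≤ f Y) :
    k ≤ ρ ∧ (k = ρ → C ≤ ρ * Real.eulerMascheroniConstant - Real.log A) := by
  have key : ∀ ε : ℝ, 0 < ε → ∃ᶠ Y : ℝ in atTop,
      (k - ρ) * Real.log (Real.log Y) < ρ * Real.eulerMascheroniConstant - Real.log A - C + ε := by
    intro ε hε
    refine ((hb ε hε).and_eventually h).mono fun Y hY => ?_
    obtain ⟨h1, h2⟩ := hY
    unfold Ev at h1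
    linarith
  constructor
  · by_contra hcon
    push Not at hcon
    have h1 : Tendsto (fun Y : ℝ => (k - ρ) * Real.log (Real.log Y)) atTop atTop :=
      loglog_top.const_mul_atTop (by linarith)
    obtain ⟨Y, h2, h3⟩ := ((key 1 one_pos).and_eventually (h1.eventually_ge_atTop
      (ρ * Real.eulerMascheroniConstant - Real.log A - C + 1))).exists
    linarith
  · intro hk
    by_contra hcon
    push Not at hcon
    obtain ⟨Y, h2⟩ := (key _ (sub_pos.2 hcon)).exists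
    rw [hk, sub_self, zero_mul] at h2
    linarith

/-- the product over the primes, if the sums over the squares converge -/
theorem Br.upper_prime (H : Br N α Ψ) {ρ A : ℝ} (hA : 0 < A)
    (hlim : Tendsto (fun w : ℝ => ‖Ψ w‖ / w ^ ρ) (𝓝[>] 0) (𝓝 A)) {c : ℝ}
    (hc : Tendsto (Sq N α) atTop (𝓝 c)) {ε : ℝ} (hε : 0 < ε) :
    ∃ᶠ Y : ℝ in atTop, Ev ρ A Y - ε < Pv N α Y + c := by
  have h1 := (tail_lim H.E hc).eventually (lt_mem_nhds (show -c - ε / 2 < -c by linarith))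
  refine ((H.upper hA hlim (half_pos hε)).and_eventually h1).mono fun Y hY => ?_
  obtain ⟨h2, h3⟩ := hY
  linarith

theorem Br.lower_prime (H : Br N α Ψ) (hne : ∀ w : ℝ, 0 < w → Ψ w ≠ 0) {ρ A : ℝ} (hA : 0 < A)
    (hlim : Tendsto (fun w : ℝ => ‖Ψ w‖ / w ^ ρ) (𝓝[>] 0) (𝓝 A)) {c : ℝ}
    (hc : Tendsto (Sq N α) atTop (𝓝 c)) {ε : ℝ} (hε : 0 < ε) :
    ∃ᶠ Y : ℝ in atTop, Pv N α Y + c < Ev ρ A Y + ε := by
  have h1 := (tail_lim H.E hc).eventually (gt_mem_nhds (show -c < -c + ε / 2 by linarith))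
  refine ((H.lower hne hA hlim (half_pos hε)).and_eventually h1).mono fun Y hY => ?_
  obtain ⟨h2, h3⟩ := hY
  linarith

/-- an upper bound for the product over the primes excludes all zeros -/
theorem Br.no_zeros_upper_prime (H : Br N α Ψ) {k C : ℝ}
    (h : ∀ᶠ Y : ℝ in atTop, Pv N α Y ≤ k * Real.log (Real.log Y) + C) :
    ∀ s : ℂ, 0 < s.re → Ψ s ≠ 0 := by
  obtain ⟨M, hM⟩ := close H.E
  refine H.no_zeros_upper (k := k) (C := C + M) ?_
  filter_upwards [h, eventually_ge_atTop (Real.exp 1)] with Y h1 h2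
  have h3 := (abs_le.1 (hM Y h2)).1
  linarith

theorem Br.no_zeros_lower_prime (H : Br N α Ψ) (hne : ∀ w : ℝ, 0 < w → Ψ w ≠ 0) {k C : ℝ}
    (h : ∀ᶠ Y : ℝ in atTop, k * Real.log (Real.log Y) + C ≤ Pv N α Y) :
    ∀ s : ℂ, 0 < s.re → Ψ s ≠ 0 := by
  obtain ⟨M, hM⟩ := close H.E
  refine H.no_zeros_lower hne (k := k) (C := C - M) ?_
  filter_upwards [h, eventually_ge_atTop (Real.exp 1)] with Y h1 h2
  have h3 := (abs_le.1 (hM Y h2)).2
  linarith

/-- an upper bound for the product over the primes bounds the order -/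
theorem Br.order_upper_prime (H : Br N α Ψ) {ρ A : ℝ} (hA : 0 < A)
    (hlim : Tendsto (fun w : ℝ => ‖Ψ w‖ / w ^ ρ) (𝓝[>] 0) (𝓝 A)) {k C : ℝ}
    (h : ∀ᶠ Y : ℝ in atTop, Pv N α Y ≤ k * Real.log (Real.log Y) + C) : ρ ≤ k := by
  obtain ⟨M, hM⟩ := close H.E
  refine (cmp_upper (f := fun Y => -Pl N α Y) (A := A) (C := C + M)
    (fun ε hε => H.upper hA hlim hε) ?_).1
  filter_upwards [h, eventually_ge_atTop (Real.exp 1)] with Y h1 h2
  have h3 := (abs_le.1 (hM Y h2)).1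
  linarith

theorem Br.order_lower_prime (H : Br N α Ψ) (hne : ∀ w : ℝ, 0 < w → Ψ w ≠ 0) {ρ A : ℝ} (hA : 0 < A)
    (hlim : Tendsto (fun w : ℝ => ‖Ψ w‖ / w ^ ρ) (𝓝[>] 0) (𝓝 A)) {k C : ℝ}
    (h : ∀ᶠ Y : ℝ in atTop, k * Real.log (Real.log Y) + C ≤ Pv N α Y) : k ≤ ρ := by
  obtain ⟨M, hM⟩ := close H.E
  refine (cmp_lower (f := fun Y => -Pl N α Y) (A := A) (C := C - M)
    (fun ε hε => H.lower hne hA hlim hε) ?_).1
  filter_upwards [h, eventually_ge_atTop (Real.exp 1)] with Y h1 h2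
  have h3 := (abs_le.1 (hM Y h2)).2
  linarith

end Pool.Agent.H125b.BR
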